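import Mathlib
import Pool.Agent.H25.CC.Main

/-!
# MP_0e99b3_gt: the cosmetic crossing conjecture for knots with an L-space double branched cover

`T` is a Conway tangle (two disjoint polygonal arcs in the ball, from NW to NE and from SW to SE)
that is not horizontally split, `K_n = T(1/2n)`, `Σ(K)` = double cover of the 3-sphere branched
along `K`, `X` = double cover of the ball branched along `T`.  All these objects except the double
covers are defined concretely in `Pool.Agent.H25.CC.Tangle`; the published theorems on double
branched covers that are used (Montesinos, Walker, Rasmussen–Rasmussen, Ozsváth–Szabó, Ni, the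
equivariant loop theorem) are the fields of the structure `H25.CC.CoverTheory`.
-/

open H25.CC

namespace Pool.Agent.Results.MP_0e99b3_gt.LSpaceCovers

/-- Let `T` be a Conway tangle that is not horizontally split.

1. If `X` is Floer simple, i.e. if two different rational closures `T(p/q)`, `T(p'/q')` of `T` have
   L-space double branched covers, then the order of `H₁(Σ(K_n))` is an injective function of `n`,
   or the Casson–Walker invariant of `Σ(K_n)` is a strictly monotone function of `n`; so the knots
   `K_n`, `n` an integer, are pairwise different as unoriented knots, and even the manifolds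
   `Σ(K_n)` are pairwise different.
2. If `m ≠ n` and `Σ(K_m)` is an L-space (for example if `K_m` is quasi-alternating), then `K_m` and
   `K_n` are different as unoriented knots; even `Σ(K_m)` and `Σ(K_n)` are different.
3. If `m ≠ n` and `K_m` is alternating, then `K_m` and `K_n` are different as unoriented knots.
4. If two of the knots `T(1/k)`, `k` an integer, are alternating, then all the knots `K_n` are
   pairwise different as unoriented knots.
5. If `K_m = K_n` as unoriented knots for some `m ≠ n`, then the slope `ν` of `T(0)` is torsion in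
   `H₁(X)`, of order `r`, say, and `Δ''(1)/Δ(1) = -(r² - 1)/12` for the symmetric Alexander
   polynomial `Δ` of `X`, and at most one rational closure of `T` has an L-space double cover. -/
theorem result (P : CoverTheory) (T : ConwayTangle) (hT : ¬ HorizontallySplit T) :
    ((P.X T).FloerSimple →
      (Function.Injective (fun n => P.det (Kn T n)) ∨ StrictMono (fun n => P.cw (Kn T n)) ∨
        StrictAnti (fun n => P.cw (Kn T n))) ∧
      ∀ m n : ℤ, m ≠ n → ¬ Isotopic (Kn T m) (Kn T n) ∧ ¬ P.SameCover (Kn T m) (Kn T n)) ∧
    (∀ m n : ℤ, m ≠ n → P.LSp (Kn T m) →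
      ¬ Isotopic (Kn T m) (Kn T n) ∧ ¬ P.SameCover (Kn T m) (Kn T n)) ∧
    (∀ m n : ℤ, m ≠ n → Alternating (Kn T m) → ¬ Isotopic (Kn T m) (Kn T n)) ∧
    (∀ i j : ℤ, i ≠ j → Alternating (clos T i) → Alternating (clos T j) →
      ∀ m n : ℤ, m ≠ n → ¬ Isotopic (Kn T m) (Kn T n)) ∧
    (∀ m n : ℤ, m ≠ n → Isotopic (Kn T m) (Kn T n) →
      IsOfFinAddOrder (P.X T).ν ∧
      vr (P.X T).Δ = - (((addOrderOf (P.X T).ν : ℚ) ^ 2 - 1) / 12) ∧ ¬ (P.X T).FloerSimple) := by
  have h1 : (P.X T).FloerSimple → ∀ m n : ℤ, m ≠ n →
      ¬ Isotopic (Kn T m) (Kn T n) ∧ ¬ P.SameCover (Kn T m) (Kn T n) := fun hX m n hmn =>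
    ⟨fun h => not_same_of_simple P hT hX hmn (P.same_of_isotopic _ _ h),
      not_same_of_simple P hT hX hmn⟩
  refine ⟨fun hX => ⟨monotone P hT hX, h1 hX⟩,
    fun m n hmn h => ⟨fun h' => not_same P hT hmn h (P.same_of_isotopic _ _ h'),
      not_same P hT hmn h⟩,
    fun m n hmn h h' => not_same P hT hmn (P.lsp_alternating _ h) (P.same_of_isotopic _ _ h'),
    fun i j hij hi hj m n hmn => (h1 (simple_of_two P hij (P.lsp_alternating _ hi)
      (P.lsp_alternating _ hj)) m n hmn).1,
    fun m n hmn h => ?_⟩
  have hs := P.same_of_isotopic _ _ h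
  obtain ⟨ht, hv⟩ := necessary P hmn (P.det_same _ _ hs) (P.cw_same _ _ hs)
  exact ⟨ht, eq_neg_of_add_eq_zero_left hv, fun hX => (h1 hX m n hmn).1 h⟩

end Pool.Agent.Results.MP_0e99b3_gt.LSpaceCovers
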